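import Pool.Agent.Q109.Tough.TGraph

/-! Induced even cycles in reduced clique graphs of chordal graphs. -/

set_option autoImplicit false

namespace Q109.RCG

open Q109.Tough (IsChordal chordal_of_rank)

/-- `K` and `K'` meet, and every path from `K \ K'` to `K' \ K` meets `K ∩ K'` -/
def SepPair {V : Type} (G : SimpleGraph V) (K K' : Set V) : Prop :=
  (K ∩ K').Nonempty ∧ ∀ a ∈ K \ K', ∀ b ∈ K' \ K, ∀ p : G.Walk a b, ∃ v ∈ p.support, v ∈ K ∩ K'

/-- the reduced clique graph: its vertices are the maximal cliques, and two different ones are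
adjacent if they form a separating pair -/
def CR {V : Type} (G : SimpleGraph V) : SimpleGraph {K : Set V // Maximal G.IsClique K} where
  Adj K K' := K ≠ K' ∧ SepPair G K.1 K'.1
  symm := ⟨by
    rintro K K' ⟨h1, h2, h3⟩
    refine ⟨h1.symm, ?_, ?_⟩
    · rw [Set.inter_comm]; exact h2
    · intro a ha b hb p
      obtain ⟨v, hv, hv'⟩ := h3 b hb a ha p.reverse
      rw [SimpleGraph.Walk.support_reverse, List.mem_reverse] at hv
      exact ⟨v, hv, hv'.symm⟩⟩
  loopless := ⟨fun _ h => h.1 rfl⟩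

/-- cyclic successor -/
def sc (m i : ℕ) : ℕ := if i + 1 = m then 0 else i + 1

/-- the attachment of the leaf `t`: `{i}` if `t = 2 i` and `{i, i + 1}` (cyclically) if
`t = 2 i + 1` -/
def S (m : ℕ) (t : ℕ) : Set (Fin m) := {b | b.val = t / 2 ∨ (t % 2 = 1 ∧ b.val = sc m (t / 2))}

/-- a clique `Fin m` with a leaf `t` attached to `S m t` for every `t < 2 m` -/
def gr (m : ℕ) : SimpleGraph (Fin m ⊕ Fin (2 * m)) where
  Adj x y := match x, y with
    | Sum.inl a, Sum.inl b => a ≠ b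
    | Sum.inl a, Sum.inr t => a ∈ S m t
    | Sum.inr t, Sum.inl a => a ∈ S m t
    | Sum.inr _, Sum.inr _ => False
  symm := ⟨by
    rintro (a | s) (b | t) h
    · exact Ne.symm h
    · exact h
    · exact h
    · exact h⟩
  loopless := ⟨by
    rintro (a | s) h
    · exact h rfl
    · exact h⟩

lemma gr_chordal (m : ℕ) : IsChordal (gr m) := by
  apply chordal_of_rank _ (fun x => match x with
    | Sum.inl _ => 1
    | Sum.inr _ => 0)
  rintro (a | s) (b | t) (c | u) h1 h2 h3 h4 hne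
  · exact fun h => hne (by rw [h])
  · simp at h4
  · simp at h3
  · simp at h3
  · exact fun h => hne (by rw [h])
  · exact absurd h2 id
  · exact absurd h1 id
  · exact absurd h1 id

/-- the clique of the leaf `t` -/
def K (m : ℕ) (t : Fin (2 * m)) : Set (Fin m ⊕ Fin (2 * m)) :=
  {x | x = Sum.inr t ∨ ∃ a ∈ S m t, x = Sum.inl a}

lemma K_max (m : ℕ) (t : Fin (2 * m)) : Maximal (gr m).IsClique (K m t) := by
  constructor
  · rintro x (rfl | ⟨a, ha, rfl⟩) y (rfl | ⟨b, hb, rfl⟩) hne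
    · exact absurd rfl hne
    · exact hb
    · exact ha
    · exact fun h => hne (by rw [h])
  · intro K' hK' hsub x hx
    by_cases hxt : x = Sum.inr t
    · exact Or.inl hxt
    · have h1 : (gr m).Adj x (Sum.inr t) := hK' hx (hsub (Or.inl rfl)) hxt
      rcases x with a | s
      · exact Or.inr ⟨a, h1, rfl⟩
      · exact absurd h1 id

lemma K_inj (m : ℕ) {t t' : Fin (2 * m)} (h : K m t = K m t') : t = t' := by
  have h1 : (Sum.inr t : Fin m ⊕ Fin (2 * m)) ∈ K m t' := by rw [← h]; exact Or.inl rfl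
  rcases h1 with h2 | ⟨a, _, h2⟩
  · exact Sum.inr_injective h2
  · exact absurd h2 (by simp)

/-- separating pairs among the cliques of leaves -/
lemma sep_iff (m : ℕ) {t t' : Fin (2 * m)} (hne : t ≠ t') (h0 : (S m t).Nonempty)
    (h0' : (S m t').Nonempty) :
    SepPair (gr m) (K m t) (K m t') ↔ (S m t ⊆ S m t' ∨ S m t' ⊆ S m t) := by
  have key : ∀ s s' : Fin (2 * m), s ≠ s' → (S m s).Nonempty → S m s ⊆ S m s' →
      SepPair (gr m) (K m s) (K m s') := by
    intro s s' hss hs0 hs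
    refine ⟨?_, ?_⟩
    · obtain ⟨a, ha⟩ := hs0
      exact ⟨Sum.inl a, Or.inr ⟨a, ha, rfl⟩, Or.inr ⟨a, hs ha, rfl⟩⟩
    · rintro x ⟨hx, hx'⟩ y ⟨hy, hy'⟩ p
      have hxs : x = Sum.inr s := by
        rcases hx with h | ⟨a, ha, rfl⟩
        · exact h
        · exact absurd (Or.inr ⟨a, hs ha, rfl⟩) hx'
      subst hxs
      cases p with
      | nil => exact absurd (Or.inl rfl) hy'
      | @cons _ z _ h q =>
        refine ⟨z, ?_, ?_⟩
        · rw [SimpleGraph.Walk.support_cons]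
          exact List.mem_cons_of_mem _ q.start_mem_support
        · rcases z with a | u
          · exact ⟨Or.inr ⟨a, h, rfl⟩, Or.inr ⟨a, hs h, rfl⟩⟩
          · exact absurd h id
  constructor
  · intro h
    by_contra hcon
    push Not at hcon
    obtain ⟨h1, h2⟩ := hcon
    obtain ⟨a, ha, ha'⟩ := Set.not_subset.1 h1
    obtain ⟨b, hb, hb'⟩ := Set.not_subset.1 h2
    have hab : a ≠ b := by rintro rfl; exact ha' hb
    have hnot : ∀ (c : Fin m) (s : Fin (2 * m)), c ∉ S m s →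
        (Sum.inl c : Fin m ⊕ Fin (2 * m)) ∉ K m s := by
      rintro c s hc (h | ⟨d, hd, h⟩)
      · exact absurd h (by simp)
      · rw [Sum.inl.injEq] at h
        rw [h] at hc
        exact hc hd
    obtain ⟨v, hv, hv1, hv2⟩ := h.2 (Sum.inl a) ⟨Or.inr ⟨a, ha, rfl⟩, hnot a t' ha'⟩ (Sum.inl b)
      ⟨Or.inr ⟨b, hb, rfl⟩, hnot b t hb'⟩
      (SimpleGraph.Walk.cons (show (gr m).Adj (Sum.inl a) (Sum.inl b) from hab)
        SimpleGraph.Walk.nil)
    simp only [SimpleGraph.Walk.support_cons, SimpleGraph.Walk.support_nil, List.mem_cons,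
      List.not_mem_nil, or_false] at hv
    rcases hv with rfl | rfl
    · exact hnot a t' ha' hv2
    · exact hnot b t hb' hv1
  · rintro (h | h)
    · exact key t t' hne h0 h
    · have h1 : (CR (gr m)).Adj ⟨K m t', K_max m t'⟩ ⟨K m t, K_max m t⟩ :=
        ⟨fun h' => hne (K_inj m (congrArg Subtype.val h')).symm, key t' t hne.symm h0' h⟩
      exact h1.symm.2

lemma S_nonempty (m : ℕ) (t : Fin (2 * m)) : (S m t).Nonempty := by
  have := t.isLt
  exact ⟨⟨t.val / 2, by omega⟩, Or.inl rfl⟩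

lemma S_sub (m : ℕ) (hm : 3 ≤ m) (t t' : Fin (2 * m)) (h : S m t ⊆ S m t') (hne : t ≠ t') :
    t.val % 2 = 0 ∧ t'.val % 2 = 1 ∧ (t.val / 2 = t'.val / 2 ∨ t.val / 2 = sc m (t'.val / 2)) := by
  have ht := t.isLt
  have ht' := t'.isLt
  have hne' : t.val ≠ t'.val := fun h => hne (Fin.ext h)
  have hscm : sc m (t.val / 2) < m := by unfold sc; split_ifs <;> omega
  have h1 : (⟨t.val / 2, by omega⟩ : Fin m) ∈ S m t' := h (Or.inl rfl)
  by_cases hodd : t.val % 2 = 1
  · have h2 : (⟨sc m (t.val / 2), hscm⟩ : Fin m) ∈ S m t' := h (Or.inr ⟨hodd, rfl⟩)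
    exfalso
    rcases h1 with h1 | ⟨h1, h1'⟩ <;> rcases h2 with h2 | ⟨h2, h2'⟩ <;>
      simp only [sc] at * <;> split_ifs at * <;> omega
  · rcases h1 with h1 | ⟨h1, h1'⟩
    · simp only at h1
      omega
    · exact ⟨by omega, h1, Or.inr h1'⟩

lemma S_sub' (m : ℕ) (t t' : Fin (2 * m)) (h1 : t.val % 2 = 0) (h2 : t'.val % 2 = 1)
    (h3 : t.val / 2 = t'.val / 2 ∨ t.val / 2 = sc m (t'.val / 2)) : S m t ⊆ S m t' := by
  rintro b (hb | ⟨hb, _⟩)
  · rcases h3 with h3 | h3
    · exact Or.inl (hb.trans h3)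
    · exact Or.inr ⟨h2, hb.trans h3⟩
  · omega

theorem even_cycle (m : ℕ) (hm : 3 ≤ m) :
    Nonempty (SimpleGraph.cycleGraph (2 * m) ↪g CR (gr m)) := by
  obtain ⟨k, hk⟩ : ∃ k, 2 * m = k + 2 := ⟨2 * m - 2, by omega⟩
  have hcyc : ∀ t t' : Fin (2 * m), (SimpleGraph.cycleGraph (2 * m)).Adj t t' ↔
      (t.val + 1 = t'.val ∨ t'.val + 1 = t.val ∨ (t.val = 0 ∧ t'.val + 1 = 2 * m) ∨
        (t'.val = 0 ∧ t.val + 1 = 2 * m)) := by
    rw [hk]
    intro t t'
    rw [Pool.Agent.H255R3.STC.cycle_adj]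
    omega
  refine ⟨⟨⟨fun t => ⟨K m t, K_max m t⟩, ?_⟩, ?_⟩⟩
  · intro t t' h
    exact K_inj m (congrArg Subtype.val h)
  · intro t t'
    show (CR (gr m)).Adj ⟨K m t, K_max m t⟩ ⟨K m t', K_max m t'⟩ ↔ _
    rw [hcyc]
    have ht := t.isLt
    have ht' := t'.isLt
    constructor
    · rintro ⟨h1, h2⟩
      have hne : t ≠ t' := by rintro rfl; exact h1 rfl
      have h3 := (sep_iff m hne (S_nonempty m t) (S_nonempty m t')).1 h2
      rcases h3 with h3 | h3
      · obtain ⟨e1, e2, e3⟩ := S_sub m hm t t' h3 hne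
        unfold sc at e3
        split_ifs at e3 <;> omega
      · obtain ⟨e1, e2, e3⟩ := S_sub m hm t' t h3 hne.symm
        unfold sc at e3
        split_ifs at e3 <;> omega
    · intro h
      have hne : t ≠ t' := by rintro rfl; omega
      refine ⟨fun h' => hne (K_inj m (congrArg Subtype.val h')), ?_⟩
      rw [sep_iff m hne (S_nonempty m t) (S_nonempty m t')]
      by_cases hpar : t.val % 2 = 0
      · left
        apply S_sub' m t t' hpar (by omega)
        unfold sc
        split_ifs <;> omega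
      · right
        apply S_sub' m t' t (by omega) (by omega)
        unfold sc
        split_ifs <;> omega

end Q109.RCG
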